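import Pool.Agent.Helper10.Ram.Lib

set_option autoImplicit false

/-!
# Upper bound for the sum of the weights over primitive rows (module `A_up`)
-/

namespace Pool.Agent.Helper34.Ram

open Complex Pool.Agent.Helper10.Ram

/-! ### the Gaussian integers -/

lemma mem_gauss {x : ℂ} (hx : x ∈ intRing I) : ∃ a b : ℤ, x = a + b * I := by
  unfold intRing at hx
  induction hx using Subring.closure_induction with
  | mem x h => exact ⟨0, 1, by simpa using h⟩
  | zero => exact ⟨0, 0, by simp⟩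
  | one => exact ⟨1, 0, by simp⟩
  | add x y _ _ hx hy =>
    obtain ⟨a, b, rfl⟩ := hx
    obtain ⟨c, d, rfl⟩ := hy
    exact ⟨a + c, b + d, by push_cast; ring⟩
  | neg x _ hx =>
    obtain ⟨a, b, rfl⟩ := hx
    exact ⟨-a, -b, by push_cast; ring⟩
  | mul x y _ _ hx hy =>
    obtain ⟨a, b, rfl⟩ := hx
    obtain ⟨c, d, rfl⟩ := hy
    refine ⟨a * c - b * d, a * d + b * c, ?_⟩
    push_cast
    linear_combination (b * d : ℂ) * I_sq

lemma norm_gauss (a b : ℤ) : ‖((a : ℂ) + b * I)‖ ^ 2 = ((a ^ 2 + b ^ 2 : ℤ) : ℝ) := by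
  rw [← Complex.normSq_eq_norm_sq, Complex.normSq_apply]
  simp
  ring

/-! ### the Eisenstein integers -/

lemma omega_re : omega.re = 1 / 2 := by
  simp [omega]

lemma omega_im : omega.im = Real.sqrt 3 / 2 := by
  simp [omega]

lemma omega_sq : omega ^ 2 = omega - 1 := by
  apply Complex.ext
  · have h3 : Real.sqrt 3 * Real.sqrt 3 = 3 := Real.mul_self_sqrt (by norm_num)
    rw [pow_two, Complex.mul_re, omega_re, omega_im]
    simp [omega_re]
    nlinarith [h3]
  · rw [pow_two, Complex.mul_im, omega_re, omega_im]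
    simp [omega_im]
    ring

lemma mem_eis {x : ℂ} (hx : x ∈ intRing omega) : ∃ a b : ℤ, x = a + b * omega := by
  unfold intRing at hx
  induction hx using Subring.closure_induction with
  | mem x h => exact ⟨0, 1, by simpa using h⟩
  | zero => exact ⟨0, 0, by simp⟩
  | one => exact ⟨1, 0, by simp⟩
  | add x y _ _ hx hy =>
    obtain ⟨a, b, rfl⟩ := hx
    obtain ⟨c, d, rfl⟩ := hy
    exact ⟨a + c, b + d, by push_cast; ring⟩
  | neg x _ hx =>
    obtain ⟨a, b, rfl⟩ := hx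
    exact ⟨-a, -b, by push_cast; ring⟩
  | mul x y _ _ hx hy =>
    obtain ⟨a, b, rfl⟩ := hx
    obtain ⟨c, d, rfl⟩ := hy
    refine ⟨a * c - b * d, a * d + b * c + b * d, ?_⟩
    push_cast
    linear_combination (b * d : ℂ) * omega_sq

lemma norm_eis (a b : ℤ) :
    ‖((a : ℂ) + b * omega)‖ ^ 2 = ((a ^ 2 + a * b + b ^ 2 : ℤ) : ℝ) := by
  have h3 : Real.sqrt 3 * Real.sqrt 3 = 3 := Real.mul_self_sqrt (by norm_num)
  rw [← Complex.normSq_eq_norm_sq, Complex.normSq_apply]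
  simp [omega_re, omega_im]
  linear_combination (b ^ 2 / 4 : ℝ) * h3

/-! ### primitive rows -/

/-- the determinant of two rows -/
noncomputable def dt (v w : ℂ × ℂ) : ℂ := v.1 * w.2 - v.2 * w.1

lemma dt_comm (v w : ℂ × ℂ) : dt v w = - dt w v := by
  unfold dt; ring

lemma prim_spec {R : Subring ℂ} {v : ℂ × ℂ} (hv : v ∈ Prim R) :
    v.1 ∈ R ∧ v.2 ∈ R ∧ ∃ a ∈ R, ∃ b ∈ R, a * v.2 - b * v.1 = 1 := by
  obtain ⟨γ, hγ, rfl⟩ := hv
  obtain ⟨g, rfl⟩ := hγ
  refine ⟨?_, ?_, ?_⟩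
  · simp
  · simp
  · refine ⟨(g 0 0 : ℂ), (g 0 0).2, (g 0 1 : ℂ), (g 0 1).2, ?_⟩
    have h := g.det_coe
    rw [Matrix.det_fin_two] at h
    have h2 := congrArg (fun x : R => (x : ℂ)) h
    simpa using h2

lemma dt_mem {R : Subring ℂ} {v w : ℂ × ℂ} (hv : v ∈ Prim R) (hw : w ∈ Prim R) : dt v w ∈ R := by
  obtain ⟨h1, h2, -⟩ := prim_spec hv
  obtain ⟨h3, h4, -⟩ := prim_spec hw
  exact R.sub_mem (R.mul_mem h1 h4) (R.mul_mem h2 h3)

lemma same_aux {R : Subring ℂ} {v w : ℂ × ℂ} (hv : v ∈ Prim R) (hw : w ∈ Prim R)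
    (h : dt v w = 0) : ∃ e ∈ R, w = (e * v.1, e * v.2) := by
  obtain ⟨-, -, a, ha, b, hb, hab⟩ := prim_spec hv
  obtain ⟨h3, h4, -⟩ := prim_spec hw
  unfold dt at h
  refine ⟨a * w.2 - b * w.1, R.sub_mem (R.mul_mem ha h4) (R.mul_mem hb h3), ?_⟩
  apply Prod.ext
  · simp only
    linear_combination (-w.1) * hab - a * h
  · simp only
    linear_combination (-w.2) * hab - b * h

lemma prim_ne {R : Subring ℂ} {v : ℂ × ℂ} (hv : v ∈ Prim R) : ¬ (v.1 = 0 ∧ v.2 = 0) := by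
  rintro ⟨h1, h2⟩
  obtain ⟨-, -, a, ha, b, hb, hab⟩ := prim_spec hv
  rw [h1, h2] at hab
  simp at hab

lemma same_line {R : Subring ℂ} (hR : ∀ x ∈ R, x ≠ 0 → 1 ≤ ‖x‖) {v w : ℂ × ℂ}
    (hv : v ∈ Prim R) (hw : w ∈ Prim R)
    (h : dt v w = 0) : ∃ e ∈ R, ‖e‖ = 1 ∧ w = (e * v.1, e * v.2) := by
  obtain ⟨e, he, hwe⟩ := same_aux hv hw h
  obtain ⟨d, hd, hvd⟩ := same_aux hw hv (by rw [dt_comm, h, neg_zero])
  have hv1 : v.1 = d * (e * v.1) := by
    have := congrArg Prod.fst hvd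
    rw [hwe] at this
    exact this
  have hv2 : v.2 = d * (e * v.2) := by
    have := congrArg Prod.snd hvd
    rw [hwe] at this
    exact this
  have hde : d * e = 1 := by
    by_contra hne
    have hne' : d * e - 1 ≠ 0 := sub_ne_zero.mpr hne
    have h1 : (d * e - 1) * v.1 = 0 := by linear_combination -hv1
    have h2 : (d * e - 1) * v.2 = 0 := by linear_combination -hv2
    exact prim_ne hv ⟨(mul_eq_zero.mp h1).resolve_left hne', (mul_eq_zero.mp h2).resolve_left hne'⟩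
  refine ⟨e, he, ?_, hwe⟩
  have hd0 : d ≠ 0 := by rintro rfl; simp at hde
  have he0 : e ≠ 0 := by rintro rfl; simp at hde
  have hn : ‖d‖ * ‖e‖ = 1 := by rw [← norm_mul, hde, norm_one]
  have h1 := hR d hd hd0
  have h2 := hR e he he0
  nlinarith

lemma uval_smul {e : ℂ} (he : ‖e‖ = 1) (v : ℂ × ℂ) (p : Pt) :
    uval (e * v.1, e * v.2) p = uval v p := by
  unfold uval
  have h1 : e * v.1 * p.1 + e * v.2 = e * (v.1 * p.1 + v.2) := by ring
  simp only
  rw [h1, norm_mul, norm_mul, he, one_mul, one_mul]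

/-! ### covering by pairwise independent rows -/

lemma cover {R : Subring ℂ} (hR : ∀ x ∈ R, x ≠ 0 → 1 ≤ ‖x‖) (S : Finset (ℂ × ℂ))
    (hS : ∀ v ∈ S, v ∈ Prim R) :
    ∃ T : Finset (ℂ × ℂ), T ⊆ S ∧ (∀ v ∈ T, ∀ w ∈ T, v ≠ w → dt v w ≠ 0) ∧
      ∀ v ∈ S, ∃ t ∈ T, ∃ e ∈ R, ‖e‖ = 1 ∧ v = (e * t.1, e * t.2) := by
  classical
  induction S using Finset.induction_on with
  | empty => exact ⟨∅, by simp, by simp, by simp⟩
  | insert v S hv ih =>
    obtain ⟨T, hTS, hT, hc⟩ := ih (fun w hw => hS w (Finset.mem_insert_of_mem hw))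
    by_cases hex : ∃ t ∈ T, dt t v = 0
    · obtain ⟨t, ht, h0⟩ := hex
      refine ⟨T, hTS.trans (Finset.subset_insert _ _), hT, ?_⟩
      intro w hw
      rw [Finset.mem_insert] at hw
      rcases hw with rfl | hw
      · obtain ⟨e, he, he1, h⟩ := same_line hR (hS t (Finset.mem_insert_of_mem (hTS ht)))
          (hS w (Finset.mem_insert_self _ _)) h0
        exact ⟨t, ht, e, he, he1, h⟩
      · exact hc w hw
    · push Not at hex
      refine ⟨insert v T, Finset.insert_subset_insert _ hTS, ?_, ?_⟩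
      · intro a ha b hb hab
        rw [Finset.mem_insert] at ha hb
        rcases ha with rfl | ha
        · rcases hb with rfl | hb
          · exact absurd rfl hab
          · rw [dt_comm]
            exact neg_ne_zero.mpr (hex b hb)
        · rcases hb with rfl | hb
          · exact hex a ha
          · exact hT a ha b hb hab
      · intro w hw
        rw [Finset.mem_insert] at hw
        rcases hw with rfl | hw
        · exact ⟨w, Finset.mem_insert_self _ _, 1, R.one_mem, norm_one, by simp⟩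
        · obtain ⟨t, ht, r⟩ := hc w hw
          exact ⟨t, Finset.mem_insert_of_mem ht, r⟩

/-- the general reduction to pairwise independent rows -/
lemma generic {R : Subring ℂ} (hR : ∀ x ∈ R, x ≠ 0 → 1 ≤ ‖x‖) (E : Finset ℂ)
    (hE : ∀ x ∈ R, ‖x‖ = 1 → x ∈ E) (c m M : ℝ) (p : Pt)
    (hT : ∀ T : Finset (ℂ × ℂ), (∀ v ∈ T, v ∈ Prim R) →
      (∀ v ∈ T, ∀ w ∈ T, v ≠ w → dt v w ≠ 0) →
      ∑ v ∈ T, max 0 (min (c - uval v p) m) ≤ M) :
    ∑' v : Prim R, ENNReal.ofReal (psi c m (1 / uval v p)) ≤ ENNReal.ofReal (E.card * M) := by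
  classical
  rw [ENNReal.tsum_eq_iSup_sum]
  apply iSup_le
  intro S
  have hnn : ∀ v : ℂ × ℂ, 0 ≤ max 0 (min (c - uval v p) m) := fun v => le_max_left _ _
  rw [← ENNReal.ofReal_sum_of_nonneg (f := fun v : Prim R => psi c m (1 / uval v p))
    (fun v _ => le_max_left _ _)]
  apply ENNReal.ofReal_le_ofReal
  have h1 : ∑ v ∈ S, psi c m (1 / uval v p)
      = ∑ v ∈ S.image (fun v : Prim R => (v : ℂ × ℂ)), max 0 (min (c - uval v p) m) := by
    rw [Finset.sum_image (fun a _ b _ h => Subtype.ext h)]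
    apply Finset.sum_congr rfl
    intro v _
    unfold psi
    rw [one_div_one_div]
  rw [h1]
  set S' := S.image (fun v : Prim R => (v : ℂ × ℂ)) with hS'
  have hS'm : ∀ v ∈ S', v ∈ Prim R := by
    intro v hv
    rw [hS', Finset.mem_image] at hv
    obtain ⟨w, -, rfl⟩ := hv
    exact w.2
  obtain ⟨T, hTS, hTd, hcov⟩ := cover hR S' hS'm
  have hsum := hT T (fun v hv => hS'm v (hTS hv)) hTd
  choose! τ hτ ε hε hε1 hv using hcov
  rw [← Finset.sum_fiberwise_of_maps_to (g := τ) (t := T) hτ]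
  have h2 : ∀ t ∈ T, ∑ v ∈ S' with τ v = t, max 0 (min (c - uval v p) m)
      ≤ E.card * max 0 (min (c - uval t p) m) := by
    intro t ht
    have h3 : ∀ v ∈ S'.filter (fun v => τ v = t), max 0 (min (c - uval v p) m)
        = max 0 (min (c - uval t p) m) := by
      intro v hv'
      rw [Finset.mem_filter] at hv'
      have h4 := hv v hv'.1
      rw [hv'.2] at h4
      have h5 : uval v p = uval t p := by
        rw [h4]
        exact uval_smul (hε1 v hv'.1) t p
      rw [h5]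
    rw [Finset.sum_congr rfl h3, Finset.sum_const, nsmul_eq_mul]
    apply mul_le_mul_of_nonneg_right _ (hnn t)
    have h6 : S'.filter (fun v => τ v = t) ⊆ E.image (fun e => (e * t.1, e * t.2)) := by
      intro v hv'
      rw [Finset.mem_filter] at hv'
      rw [Finset.mem_image]
      refine ⟨ε v, hE _ (hε v hv'.1) (hε1 v hv'.1), ?_⟩
      have h4 := hv v hv'.1
      rw [hv'.2] at h4
      exact h4.symm
    have h7 := (Finset.card_le_card h6).trans Finset.card_image_le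
    exact_mod_cast h7
  calc ∑ t ∈ T, ∑ v ∈ S' with τ v = t, max 0 (min (c - uval v p) m)
      ≤ ∑ t ∈ T, E.card * max 0 (min (c - uval t p) m) := Finset.sum_le_sum h2
    _ = E.card * ∑ t ∈ T, max 0 (min (c - uval t p) m) := by rw [Finset.mul_sum]
    _ ≤ E.card * M := mul_le_mul_of_nonneg_left hsum (by positivity)

/-! ### the second moment inequality -/

lemma lagr (c1 a1 c2 a2 : ℂ) :
    ‖c1 * a2 - c2 * a1‖ ^ 2 = ‖c1‖ ^ 2 * ‖a2‖ ^ 2 + ‖c2‖ ^ 2 * ‖a1‖ ^ 2
      - 2 * ((c1.re * a1.re + c1.im * a1.im) * (c2.re * a2.re + c2.im * a2.im)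
        + (c1.im * a1.re - c1.re * a1.im) * (c2.im * a2.re - c2.re * a2.im)) := by
  simp only [← Complex.normSq_eq_norm_sq, Complex.normSq_apply, Complex.sub_re, Complex.sub_im,
    Complex.mul_re, Complex.mul_im]
  ring

lemma sum_dt_le (T : Finset (ℂ × ℂ)) {p : Pt} (hp : p ∈ UH) :
    2 * ∑ v ∈ T, ∑ w ∈ T, ‖dt v w‖ ^ 2 ≤ (∑ v ∈ T, uval v p) ^ 2 := by
  have hr : 0 < p.2 := hp
  set A : ℝ := ∑ v ∈ T, ‖v.1 * p.1 + v.2‖ ^ 2 with hA
  set B : ℝ := ∑ v ∈ T, ‖v.1‖ ^ 2 with hB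
  have hs : ∑ v ∈ T, uval v p = A / p.2 + B * p.2 := by
    rw [hA, hB, Finset.sum_div, Finset.sum_mul, ← Finset.sum_add_distrib]
    apply Finset.sum_congr rfl
    intro v _
    unfold uval
    field_simp
  set X : ℝ := ∑ v ∈ T, (v.1.re * (v.1 * p.1 + v.2).re + v.1.im * (v.1 * p.1 + v.2).im) with hX
  set Y : ℝ := ∑ v ∈ T, (v.1.im * (v.1 * p.1 + v.2).re - v.1.re * (v.1 * p.1 + v.2).im) with hY
  have hD : ∑ v ∈ T, ∑ w ∈ T, ‖dt v w‖ ^ 2 = 2 * (A * B) - 2 * (X * X + Y * Y) := by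
    have h1 : ∀ v w : ℂ × ℂ, ‖dt v w‖ ^ 2
        = ‖v.1‖ ^ 2 * ‖w.1 * p.1 + w.2‖ ^ 2 + ‖v.1 * p.1 + v.2‖ ^ 2 * ‖w.1‖ ^ 2
          - 2 * ((v.1.re * (v.1 * p.1 + v.2).re + v.1.im * (v.1 * p.1 + v.2).im)
              * (w.1.re * (w.1 * p.1 + w.2).re + w.1.im * (w.1 * p.1 + w.2).im)
            + (v.1.im * (v.1 * p.1 + v.2).re - v.1.re * (v.1 * p.1 + v.2).im)
              * (w.1.im * (w.1 * p.1 + w.2).re - w.1.re * (w.1 * p.1 + w.2).im)) := by
      intro v w
      have h2 : dt v w = v.1 * (w.1 * p.1 + w.2) - w.1 * (v.1 * p.1 + v.2) := by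
        unfold dt; ring
      rw [h2, lagr]
      ring
    simp only [h1]
    simp only [Finset.sum_sub_distrib, Finset.sum_add_distrib, ← Finset.mul_sum,
      ← Finset.sum_mul]
    rw [← hA, ← hB, hX, hY, Finset.sum_add_distrib, Finset.sum_sub_distrib]
    ring
  rw [hD, hs]
  have h4 : (A / p.2 + B * p.2) ^ 2 = (A / p.2 - B * p.2) ^ 2 + 4 * (A * B) := by
    field_simp
    ring
  rw [h4]
  nlinarith [sq_nonneg (A / p.2 - B * p.2), mul_self_nonneg X, mul_self_nonneg Y]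

/-- the final estimate for a finite set of pairwise independent rows -/
lemma final_step {c m M : ℝ} {p : Pt} (hp : p ∈ UH) (T : Finset (ℂ × ℂ)) (hm : m ≤ M) (hM : 0 ≤ M)
    (hD : ∀ T' ⊆ T, 2 ≤ T'.card →
      (c * T'.card - M) ^ 2 ≤ 2 * ∑ v ∈ T', ∑ w ∈ T', ‖dt v w‖ ^ 2) :
    ∑ v ∈ T, max 0 (min (c - uval v p) m) ≤ M := by
  classical
  set T' := T.filter (fun v => uval v p < c) with hT'
  have h1 : ∑ v ∈ T, max 0 (min (c - uval v p) m) = ∑ v ∈ T', max 0 (min (c - uval v p) m) := by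
    rw [hT', Finset.sum_filter]
    apply Finset.sum_congr rfl
    intro v _
    by_cases h : uval v p < c
    · rw [if_pos h]
    · rw [if_neg h]
      apply max_eq_left
      exact (min_le_left _ _).trans (by linarith [not_lt.mp h])
  rw [h1]
  have hr : 0 < p.2 := hp
  by_cases hk : 2 ≤ T'.card
  · have h2 : ∀ v ∈ T', max 0 (min (c - uval v p) m) ≤ c - uval v p := by
      intro v hv
      rw [hT', Finset.mem_filter] at hv
      exact max_le (by linarith [hv.2]) (min_le_left _ _)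
    have h3 := Finset.sum_le_sum h2
    rw [Finset.sum_sub_distrib, Finset.sum_const, nsmul_eq_mul] at h3
    have h4 := hD T' (Finset.filter_subset _ _) hk
    have h5 := sum_dt_le T' hp
    have h6 : 0 ≤ ∑ v ∈ T', uval v p := by
      apply Finset.sum_nonneg
      intro v _
      unfold uval
      positivity
    have h7 : c * T'.card - M ≤ ∑ v ∈ T', uval v p :=
      (abs_le_of_sq_le_sq' (h4.trans h5) h6).2
    linarith
  · have hk' : T'.card = 0 ∨ T'.card = 1 := by omega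
    rcases hk' with h0 | h0
    · rw [Finset.card_eq_zero.mp h0]
      simpa using hM
    · obtain ⟨v, hv⟩ := Finset.card_eq_one.mp h0
      rw [hv, Finset.sum_singleton]
      exact max_le hM ((min_le_right _ _).trans hm)

/-- the trivial lower bound for the sum of the squares of determinants -/
lemma sum_one_le (T : Finset (ℂ × ℂ)) (h : ∀ v ∈ T, ∀ w ∈ T, v ≠ w → 1 ≤ ‖dt v w‖) :
    (T.card : ℝ) ^ 2 - T.card ≤ ∑ v ∈ T, ∑ w ∈ T, ‖dt v w‖ ^ 2 := by
  classical
  have h1 : ∀ v ∈ T, ((T.card : ℝ) - 1) ≤ ∑ w ∈ T, ‖dt v w‖ ^ 2 := by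
    intro v hv
    have h2 : ∑ w ∈ T, (if v = w then (0 : ℝ) else 1) ≤ ∑ w ∈ T, ‖dt v w‖ ^ 2 := by
      apply Finset.sum_le_sum
      intro w hw
      split_ifs with h3
      · positivity
      · have := h v hv w hw h3
        nlinarith
    refine le_trans (le_of_eq ?_) h2
    have h3 : ∀ w ∈ T, (if v = w then (0 : ℝ) else 1) = 1 - (if v = w then 1 else 0) := by
      intro w _
      split_ifs <;> simp
    rw [Finset.sum_congr rfl h3, Finset.sum_sub_distrib, Finset.sum_ite_eq]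
    simp [hv]
  have h4 := Finset.sum_le_sum h1
  rw [Finset.sum_const, nsmul_eq_mul] at h4
  linarith

/-! ### Eisenstein -/

lemma eis_disc : ∀ x ∈ intRing omega, x ≠ 0 → 1 ≤ ‖x‖ := by
  intro x hx h0
  obtain ⟨a, b, rfl⟩ := mem_eis hx
  have h1 := norm_eis a b
  have h2 : 1 ≤ a ^ 2 + a * b + b ^ 2 := by
    by_contra hcon
    have h3 : a ^ 2 + a * b + b ^ 2 ≤ 0 := by omega
    have h4 : b = 0 := by nlinarith [sq_nonneg (2 * a + b), sq_nonneg b]
    subst h4
    have h5 : a = 0 := by nlinarith [sq_nonneg a]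
    subst h5
    simp at h0
  have h3 : (1 : ℝ) ≤ ((a ^ 2 + a * b + b ^ 2 : ℤ) : ℝ) := by exact_mod_cast h2
  rw [← h1] at h3
  nlinarith [norm_nonneg ((a : ℂ) + b * omega)]

noncomputable def eisUnits : Finset ℂ :=
  {1, -1, omega, -omega, omega - 1, 1 - omega}

lemma eis_units : ∀ x ∈ intRing omega, ‖x‖ = 1 → x ∈ eisUnits := by
  intro x hx h0
  obtain ⟨a, b, rfl⟩ := mem_eis hx
  have h1 := norm_eis a b
  rw [h0] at h1
  have h2 : a ^ 2 + a * b + b ^ 2 = 1 := by
    have : ((a ^ 2 + a * b + b ^ 2 : ℤ) : ℝ) = ((1 : ℤ) : ℝ) := by rw [← h1]; norm_num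
    exact_mod_cast this
  have hb1 : b ≤ 1 := by nlinarith [sq_nonneg (2 * a + b)]
  have hb2 : -1 ≤ b := by nlinarith [sq_nonneg (2 * a + b)]
  have ha1 : a ≤ 1 := by nlinarith [sq_nonneg (2 * b + a)]
  have ha2 : -1 ≤ a := by nlinarith [sq_nonneg (2 * b + a)]
  unfold eisUnits
  interval_cases a <;> interval_cases b <;> simp at h2 <;> simp <;> ring_nf <;> simp

lemma card_eisUnits : eisUnits.card ≤ 6 := by
  unfold eisUnits
  exact Finset.card_le_six

theorem upper_eisenstein {p : Pt} (hp : p ∈ UH) :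
    ∑' v : Prim (intRing omega), ENNReal.ofReal (psi (141 / 100) (41 / 50) (1 / uval v p))
      ≤ ENNReal.ofReal (6 * (41 / 50)) := by
  refine (generic eis_disc eisUnits eis_units (141 / 100) (41 / 50) (41 / 50) p ?_).trans ?_
  · intro T hT hTd
    apply final_step hp T le_rfl (by norm_num)
    intro T' hT' hk
    have h1 := sum_one_le T' (fun v hv w hw hvw => eis_disc _
      (dt_mem (hT v (hT' hv)) (hT w (hT' hw))) (hTd v (hT' hv) w (hT' hw) hvw))
    have h2 : (2 : ℝ) ≤ T'.card := by exact_mod_cast hk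
    nlinarith
  · apply ENNReal.ofReal_le_ofReal
    have : (eisUnits.card : ℝ) ≤ 6 := by exact_mod_cast card_eisUnits
    nlinarith

/-! ### Gauss -/

lemma gauss_disc : ∀ x ∈ intRing I, x ≠ 0 → 1 ≤ ‖x‖ := by
  intro x hx h0
  obtain ⟨a, b, rfl⟩ := mem_gauss hx
  have h1 := norm_gauss a b
  have h2 : 1 ≤ a ^ 2 + b ^ 2 := by
    by_contra hcon
    have h3 : a ^ 2 + b ^ 2 ≤ 0 := by omega
    have h4 : b = 0 := by nlinarith [sq_nonneg a, sq_nonneg b]
    subst h4
    have h5 : a = 0 := by nlinarith [sq_nonneg a]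
    subst h5
    simp at h0
  have h3 : (1 : ℝ) ≤ ((a ^ 2 + b ^ 2 : ℤ) : ℝ) := by exact_mod_cast h2
  rw [← h1] at h3
  nlinarith [norm_nonneg ((a : ℂ) + b * I)]

noncomputable def gaussUnits : Finset ℂ := {1, -1, I, -I}

lemma gauss_units : ∀ x ∈ intRing I, ‖x‖ = 1 → x ∈ gaussUnits := by
  intro x hx h0
  obtain ⟨a, b, rfl⟩ := mem_gauss hx
  have h1 := norm_gauss a b
  rw [h0] at h1
  have h2 : a ^ 2 + b ^ 2 = 1 := by
    have : ((a ^ 2 + b ^ 2 : ℤ) : ℝ) = ((1 : ℤ) : ℝ) := by rw [← h1]; norm_num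
    exact_mod_cast this
  have hb1 : b ≤ 1 := by nlinarith [sq_nonneg a]
  have hb2 : -1 ≤ b := by nlinarith [sq_nonneg a]
  have ha1 : a ≤ 1 := by nlinarith [sq_nonneg b]
  have ha2 : -1 ≤ a := by nlinarith [sq_nonneg b]
  unfold gaussUnits
  interval_cases a <;> interval_cases b <;> simp at h2 <;> simp

lemma card_gaussUnits : gaussUnits.card ≤ 4 := by
  unfold gaussUnits
  exact Finset.card_le_four

/-- reduction modulo `1 + i` -/
noncomputable def chi (x : ℂ) : ZMod 2 := ((⌊x.re⌋ + ⌊x.im⌋ : ℤ) : ZMod 2)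

lemma chi_val (a b : ℤ) : chi ((a : ℂ) + b * I) = ((a + b : ℤ) : ZMod 2) := by
  unfold chi
  simp

lemma chi_mul {x y : ℂ} (hx : x ∈ intRing I) (hy : y ∈ intRing I) :
    chi (x * y) = chi x * chi y := by
  obtain ⟨a, b, rfl⟩ := mem_gauss hx
  obtain ⟨c, d, rfl⟩ := mem_gauss hy
  have h1 : ((a : ℂ) + b * I) * (c + d * I) = ((a * c - b * d : ℤ) : ℂ) + ((a * d + b * c : ℤ) : ℂ) * I := by
    push_cast
    linear_combination (b * d : ℂ) * I_sq
  rw [h1, chi_val, chi_val, chi_val]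
  push_cast
  have h2 : (2 : ZMod 2) = 0 := by decide
  linear_combination (-(b * d : ZMod 2)) * h2

lemma chi_sub {x y : ℂ} (hx : x ∈ intRing I) (hy : y ∈ intRing I) :
    chi (x - y) = chi x - chi y := by
  obtain ⟨a, b, rfl⟩ := mem_gauss hx
  obtain ⟨c, d, rfl⟩ := mem_gauss hy
  have h1 : ((a : ℂ) + b * I) - (c + d * I) = ((a - c : ℤ) : ℂ) + ((b - d : ℤ) : ℂ) * I := by
    push_cast
    ring
  rw [h1, chi_val, chi_val, chi_val]
  push_cast
  ring

lemma chi_norm {x : ℂ} (hx : x ∈ intRing I) (h0 : x ≠ 0) (hc : chi x = 0) : 2 ≤ ‖x‖ ^ 2 := by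
  obtain ⟨a, b, rfl⟩ := mem_gauss hx
  rw [chi_val, ZMod.intCast_zmod_eq_zero_iff_dvd] at hc
  obtain ⟨k, hk⟩ := hc
  have h1 := norm_gauss a b
  rw [h1]
  have h2 : 2 ≤ a ^ 2 + b ^ 2 := by
    by_contra hcon
    have h3 : a ^ 2 + b ^ 2 ≤ 1 := by omega
    have hb1 : b ≤ 1 := by nlinarith [sq_nonneg a]
    have hb2 : -1 ≤ b := by nlinarith [sq_nonneg a]
    have ha1 : a ≤ 1 := by nlinarith [sq_nonneg b]
    have ha2 : -1 ≤ a := by nlinarith [sq_nonneg b]
    interval_cases a <;> interval_cases b <;> first | omega | simp_all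
  exact_mod_cast h2

/-- class of a row modulo `1 + i` -/
noncomputable def cls (v : ℂ × ℂ) : ZMod 2 × ZMod 2 := (chi v.1, chi v.2)

lemma cls_ne {v : ℂ × ℂ} (hv : v ∈ Prim (intRing I)) : cls v ≠ (0, 0) := by
  intro h
  obtain ⟨h1, h2, a, ha, b, hb, hab⟩ := prim_spec hv
  have h3 : chi v.1 = 0 := congrArg Prod.fst h
  have h4 : chi v.2 = 0 := congrArg Prod.snd h
  have h5 := congrArg chi hab
  rw [chi_sub (Subring.mul_mem _ ha h2) (Subring.mul_mem _ hb h1), chi_mul ha h2, chi_mul hb h1,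
    h3, h4] at h5
  have h6 : chi 1 = 1 := by
    have := chi_val 1 0
    simpa using this
  rw [h6] at h5
  simp at h5

lemma cls_dt {v w : ℂ × ℂ} (hv : v ∈ Prim (intRing I)) (hw : w ∈ Prim (intRing I))
    (h : cls v = cls w) : chi (dt v w) = 0 := by
  obtain ⟨h1, h2, -⟩ := prim_spec hv
  obtain ⟨h3, h4, -⟩ := prim_spec hw
  have h5 : chi v.1 = chi w.1 := congrArg Prod.fst h
  have h6 : chi v.2 = chi w.2 := congrArg Prod.snd h
  unfold dt
  rw [chi_sub (Subring.mul_mem _ h1 h4) (Subring.mul_mem _ h2 h3), chi_mul h1 h4, chi_mul h2 h3,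
    h5, h6]
  ring

lemma gauss_sum (T : Finset (ℂ × ℂ)) (hT : ∀ v ∈ T, v ∈ Prim (intRing I))
    (hTd : ∀ v ∈ T, ∀ w ∈ T, v ≠ w → dt v w ≠ 0) :
    4 / 3 * (T.card : ℝ) ^ 2 - 2 * T.card ≤ ∑ v ∈ T, ∑ w ∈ T, ‖dt v w‖ ^ 2 := by
  classical
  have h1 : ∀ v ∈ T, ((T.card : ℝ) - 2 + (T.filter (fun w => cls w = cls v)).card)
      ≤ ∑ w ∈ T, ‖dt v w‖ ^ 2 := by
    intro v hv
    have h2 : ∑ w ∈ T, ((1 : ℝ) - 2 * (if v = w then (1 : ℝ) else 0)
        + (if cls w = cls v then 1 else 0)) ≤ ∑ w ∈ T, ‖dt v w‖ ^ 2 := by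
      apply Finset.sum_le_sum
      intro w hw
      by_cases h3 : v = w
      · subst h3
        simp
        norm_num
      · rw [if_neg h3]
        by_cases h4 : cls w = cls v
        · rw [if_pos h4]
          have := chi_norm (dt_mem (hT v hv) (hT w hw)) (hTd v hv w hw h3)
            (cls_dt (hT v hv) (hT w hw) h4.symm)
          linarith
        · rw [if_neg h4]
          have := gauss_disc _ (dt_mem (hT v hv) (hT w hw)) (hTd v hv w hw h3)
          nlinarith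
    refine le_trans (le_of_eq ?_) h2
    rw [Finset.sum_add_distrib, Finset.sum_sub_distrib, ← Finset.mul_sum, Finset.sum_ite_eq,
      if_pos hv, Finset.sum_boole]
    simp
  have h4 := Finset.sum_le_sum h1
  refine le_trans ?_ h4
  set C : Finset (ZMod 2 × ZMod 2) := Finset.univ.erase (0, 0) with hC
  have hCc : C.card = 3 := by rw [hC]; decide
  have hmap : ∀ v ∈ T, cls v ∈ C := by
    intro v hv
    rw [hC, Finset.mem_erase]
    exact ⟨cls_ne (hT v hv), Finset.mem_univ _⟩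
  rw [Finset.sum_add_distrib, Finset.sum_const, nsmul_eq_mul]
  have h5 : ∑ v ∈ T, ((T.filter (fun w => cls w = cls v)).card : ℝ)
      = ∑ k ∈ C, ((T.filter (fun w => cls w = k)).card : ℝ) ^ 2 := by
    rw [← Finset.sum_fiberwise_of_maps_to (g := cls) (t := C) hmap]
    apply Finset.sum_congr rfl
    intro k _
    rw [Finset.sum_congr rfl (g := fun _ => ((T.filter (fun w => cls w = k)).card : ℝ))]
    · rw [Finset.sum_const, nsmul_eq_mul, pow_two]
    · intro v hv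
      rw [Finset.mem_filter] at hv
      rw [hv.2]
  have h6 : (T.card : ℝ) = ∑ k ∈ C, ((T.filter (fun w => cls w = k)).card : ℝ) := by
    have := Finset.card_eq_sum_card_fiberwise (f := cls) (s := T) (t := C) hmap
    exact_mod_cast this
  have h7 := sq_sum_le_card_mul_sum_sq (s := C)
    (f := fun k => ((T.filter (fun w => cls w = k)).card : ℝ))
  rw [← h6, hCc] at h7
  rw [h5]
  push_cast at h7
  nlinarith

theorem upper_gauss {p : Pt} (hp : p ∈ UH) :
    ∑' v : Prim (intRing I), ENNReal.ofReal (psi (8 / 5) (6 / 5) (1 / uval v p))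
      ≤ ENNReal.ofReal (4 * (167 / 125)) := by
  refine (generic gauss_disc gaussUnits gauss_units (8 / 5) (6 / 5) (167 / 125) p ?_).trans ?_
  · intro T hT hTd
    apply final_step hp T (by norm_num) (by norm_num)
    intro T' hT' hk
    have h1 := sum_one_le T' (fun v hv w hw hvw => gauss_disc _
      (dt_mem (hT v (hT' hv)) (hT w (hT' hw))) (hTd v (hT' hv) w (hT' hw) hvw))
    have h2 := gauss_sum T' (fun v hv => hT v (hT' hv))
      (fun v hv w hw hvw => hTd v (hT' hv) w (hT' hw) hvw)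
    rcases Nat.lt_or_ge T'.card 3 with h3 | h3
    · have h4 : T'.card = 2 := by omega
      rw [h4] at h1 ⊢
      push_cast at h1 ⊢
      nlinarith
    · have h4 : (3 : ℝ) ≤ T'.card := by exact_mod_cast h3
      nlinarith
  · apply ENNReal.ofReal_le_ofReal
    have : (gaussUnits.card : ℝ) ≤ 4 := by exact_mod_cast card_gaussUnits
    nlinarith

end Pool.Agent.Helper34.Ram
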