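import Pool.Agent.Helper34.Ram.AUp
import Pool.Agent.Helper10.Ram.Lib2

set_option autoImplicit false

/-!
# Upper bound for the sum of the two-line weights over primitive rows (module `A_up2`)
-/

namespace Pool.Agent.Helper34.Ram

open Complex Pool.Agent.Helper10.Ram

/-- the general reduction to pairwise independent rows, for any nonnegative profile -/
lemma generic2 {R : Subring ℂ} (hR : ∀ x ∈ R, x ≠ 0 → 1 ≤ ‖x‖) (E : Finset ℂ)
    (hE : ∀ x ∈ R, ‖x‖ = 1 → x ∈ E) (Φ : ℝ → ℝ) (hΦ : ∀ u, 0 ≤ Φ u) (M : ℝ) (p : Pt)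
    (hT : ∀ T : Finset (ℂ × ℂ), (∀ v ∈ T, v ∈ Prim R) →
      (∀ v ∈ T, ∀ w ∈ T, v ≠ w → dt v w ≠ 0) →
      ∑ v ∈ T, Φ (uval v p) ≤ M) :
    ∑' v : Prim R, ENNReal.ofReal (Φ (uval v p)) ≤ ENNReal.ofReal (E.card * M) := by
  classical
  rw [ENNReal.tsum_eq_iSup_sum]
  apply iSup_le
  intro S
  have hnn : ∀ v : ℂ × ℂ, 0 ≤ Φ (uval v p) := fun v => hΦ _
  rw [← ENNReal.ofReal_sum_of_nonneg (f := fun v : Prim R => Φ (uval v p))
    (fun v _ => hΦ _)]
  apply ENNReal.ofReal_le_ofReal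
  have h1 : ∑ v ∈ S, Φ (uval v p)
      = ∑ v ∈ S.image (fun v : Prim R => (v : ℂ × ℂ)), Φ (uval v p) := by
    rw [Finset.sum_image (fun a _ b _ h => Subtype.ext h)]
  rw [h1]
  set S' := S.image (fun v : Prim R => (v : ℂ × ℂ)) with hS'
  have hS'm : ∀ v ∈ S', v ∈ Prim R := by
    intro v hv
    rw [hS', Finset.mem_image] at hv
    obtain ⟨w, -, rfl⟩ := hv
    exact w.2
  obtain ⟨T, hTS, hTd, hcov⟩ := cover hR S' hS'm
  have hsum := hT T (fun v hv => hS'm v (hTS hv)) hTd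
  choose! τ hτ ε hε hε1 hv using hcov
  rw [← Finset.sum_fiberwise_of_maps_to (g := τ) (t := T) hτ]
  have h2 : ∀ t ∈ T, ∑ v ∈ S' with τ v = t, Φ (uval v p)
      ≤ E.card * Φ (uval t p) := by
    intro t ht
    have h3 : ∀ v ∈ S'.filter (fun v => τ v = t), Φ (uval v p) = Φ (uval t p) := by
      intro v hv'
      rw [Finset.mem_filter] at hv'
      have h4 := hv v hv'.1
      rw [hv'.2] at h4
      have h5 : uval v p = uval t p := by
        rw [h4]
        exact uval_smul (hε1 v hv'.1) t p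
      rw [h5]
    rw [Finset.sum_congr rfl h3, Finset.sum_const, nsmul_eq_mul]
    apply mul_le_mul_of_nonneg_right _ (hnn t)
    have h6 : S'.filter (fun v => τ v = t) ⊆ E.image (fun e => (e * t.1, e * t.2)) := by
      intro v hv'
      rw [Finset.mem_filter] at hv'
      rw [Finset.mem_image]
      refine ⟨ε v, hE _ (hε v hv'.1) (hε1 v hv'.1), ?_⟩
      have h4 := hv v hv'.1
      rw [hv'.2] at h4
      exact h4.symm
    have h7 := (Finset.card_le_card h6).trans Finset.card_image_le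
    exact_mod_cast h7
  calc ∑ t ∈ T, ∑ v ∈ S' with τ v = t, Φ (uval v p)
      ≤ ∑ t ∈ T, E.card * Φ (uval t p) := Finset.sum_le_sum h2
    _ = E.card * ∑ t ∈ T, Φ (uval t p) := by rw [Finset.mul_sum]
    _ ≤ E.card * M := mul_le_mul_of_nonneg_left hsum (by positivity)

/-- the weighted second moment inequality -/
lemma sum_dt_le2 (T : Finset (ℂ × ℂ)) (s : ℂ × ℂ → ℝ) {p : Pt} (hp : p ∈ UH) :
    2 * ∑ v ∈ T, ∑ w ∈ T, s v * s w * ‖dt v w‖ ^ 2 ≤ (∑ v ∈ T, s v * uval v p) ^ 2 := by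
  have hr : 0 < p.2 := hp
  set A : ℝ := ∑ v ∈ T, s v * ‖v.1 * p.1 + v.2‖ ^ 2 with hA
  set B : ℝ := ∑ v ∈ T, s v * ‖v.1‖ ^ 2 with hB
  have hs : ∑ v ∈ T, s v * uval v p = A / p.2 + B * p.2 := by
    rw [hA, hB, Finset.sum_div, Finset.sum_mul, ← Finset.sum_add_distrib]
    apply Finset.sum_congr rfl
    intro v _
    unfold uval
    field_simp
  set X : ℝ := ∑ v ∈ T, s v * (v.1.re * (v.1 * p.1 + v.2).re + v.1.im * (v.1 * p.1 + v.2).im)
    with hX
  set Y : ℝ := ∑ v ∈ T, s v * (v.1.im * (v.1 * p.1 + v.2).re - v.1.re * (v.1 * p.1 + v.2).im)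
    with hY
  have hD : ∑ v ∈ T, ∑ w ∈ T, s v * s w * ‖dt v w‖ ^ 2 = 2 * (A * B) - 2 * (X * X + Y * Y) := by
    have h1 : ∀ v w : ℂ × ℂ, s v * s w * ‖dt v w‖ ^ 2
        = (s v * ‖v.1‖ ^ 2) * (s w * ‖w.1 * p.1 + w.2‖ ^ 2)
          + (s v * ‖v.1 * p.1 + v.2‖ ^ 2) * (s w * ‖w.1‖ ^ 2)
          - 2 * ((s v * (v.1.re * (v.1 * p.1 + v.2).re + v.1.im * (v.1 * p.1 + v.2).im))
              * (s w * (w.1.re * (w.1 * p.1 + w.2).re + w.1.im * (w.1 * p.1 + w.2).im))
            + (s v * (v.1.im * (v.1 * p.1 + v.2).re - v.1.re * (v.1 * p.1 + v.2).im))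
              * (s w * (w.1.im * (w.1 * p.1 + w.2).re - w.1.re * (w.1 * p.1 + w.2).im))) := by
      intro v w
      have h2 : dt v w = v.1 * (w.1 * p.1 + w.2) - w.1 * (v.1 * p.1 + v.2) := by
        unfold dt; ring
      rw [h2, lagr]
      ring
    simp only [h1]
    simp only [Finset.sum_sub_distrib, Finset.sum_add_distrib, ← Finset.mul_sum,
      ← Finset.sum_mul]
    rw [← hA, ← hB, ← hX, ← hY]
    ring
  rw [hD, hs]
  have h4 : (A / p.2 + B * p.2) ^ 2 = (A / p.2 - B * p.2) ^ 2 + 4 * (A * B) := by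
    field_simp
    ring
  rw [h4]
  nlinarith [sq_nonneg (A / p.2 - B * p.2), mul_self_nonneg X, mul_self_nonneg Y]

/-- the profile of `psi2` as a function of `u = 1 / r` -/
noncomputable def Phi (c p s m : ℝ) (u : ℝ) : ℝ := min m (max 0 (max (c - u) (p - s * u)))

lemma psi2_eq (c p s m : ℝ) (u : ℝ) : psi2 c p s m (1 / u) = Phi c p s m u := by
  unfold psi2 Phi
  rw [one_div_one_div]
  congr 3
  rw [one_div, div_inv_eq_mul]

lemma Phi_nonneg {c p s m : ℝ} (hm : 0 ≤ m) (u : ℝ) : 0 ≤ Phi c p s m u :=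
  le_min hm (le_max_left _ _)

/-- slope of the active line -/
noncomputable def slope (c p s : ℝ) (u : ℝ) : ℝ := if p - s * u ≤ c - u then 1 else s
/-- height of the active line -/
noncomputable def hgt (c p s : ℝ) (u : ℝ) : ℝ := if p - s * u ≤ c - u then c else p

lemma Phi_le {c p s m : ℝ} {u : ℝ} (h : 0 < max (c - u) (p - s * u)) :
    Phi c p s m u ≤ hgt c p s u - slope c p s u * u := by
  unfold Phi hgt slope
  refine (min_le_right _ _).trans ?_
  rw [max_eq_right h.le]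
  split_ifs with h1
  · rw [max_eq_left h1]; linarith
  · rw [max_eq_right (not_le.mp h1).le]

/-- the final estimate for a finite set of pairwise independent rows -/
lemma final_step2 {c pp s M : ℝ} {p : Pt} (hp : p ∈ UH) (T : Finset (ℂ × ℂ)) (hM : 0 ≤ M)
    (hs : 0 < s)
    (hD : ∀ T' ⊆ T, 2 ≤ T'.card → ∀ A ⊆ T', ∀ σ : ℂ × ℂ → ℝ,
      (∀ v ∈ A, σ v = 1) → (∀ v ∈ T' \ A, σ v = s) →
      (c * A.card + pp * (T' \ A).card - M) ^ 2
        ≤ 2 * ∑ v ∈ T', ∑ w ∈ T', σ v * σ w * ‖dt v w‖ ^ 2) :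
    ∑ v ∈ T, Phi c pp s M (uval v p) ≤ M := by
  classical
  set T' := T.filter (fun v => 0 < max (c - uval v p) (pp - s * uval v p)) with hT'
  have h1 : ∑ v ∈ T, Phi c pp s M (uval v p) = ∑ v ∈ T', Phi c pp s M (uval v p) := by
    rw [hT', Finset.sum_filter]
    apply Finset.sum_congr rfl
    intro v _
    by_cases h : 0 < max (c - uval v p) (pp - s * uval v p)
    · rw [if_pos h]
    · rw [if_neg h]
      unfold Phi
      rw [max_eq_left (not_lt.mp h)]
      exact min_eq_right hM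
  rw [h1]
  have hr : 0 < p.2 := hp
  by_cases hk : 2 ≤ T'.card
  · set A := T'.filter (fun v => pp - s * uval v p ≤ c - uval v p) with hA
    have h2 : ∀ v ∈ T', Phi c pp s M (uval v p)
        ≤ hgt c pp s (uval v p) - slope c pp s (uval v p) * uval v p := by
      intro v hv
      rw [hT', Finset.mem_filter] at hv
      exact Phi_le hv.2
    have h3 := Finset.sum_le_sum h2
    rw [Finset.sum_sub_distrib] at h3
    have hAs : ∀ v ∈ A, slope c pp s (uval v p) = 1 := by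
      intro v hv
      rw [hA, Finset.mem_filter] at hv
      unfold slope
      rw [if_pos hv.2]
    have hBs : ∀ v ∈ T' \ A, slope c pp s (uval v p) = s := by
      intro v hv
      rw [Finset.mem_sdiff] at hv
      unfold slope
      rw [if_neg (fun h => hv.2 (Finset.mem_filter.mpr ⟨hv.1, h⟩))]
    have hAh : ∀ v ∈ A, hgt c pp s (uval v p) = c := by
      intro v hv
      rw [hA, Finset.mem_filter] at hv
      unfold hgt
      rw [if_pos hv.2]
    have hBh : ∀ v ∈ T' \ A, hgt c pp s (uval v p) = pp := by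
      intro v hv
      rw [Finset.mem_sdiff] at hv
      unfold hgt
      rw [if_neg (fun h => hv.2 (Finset.mem_filter.mpr ⟨hv.1, h⟩))]
    have h4 := hD T' (Finset.filter_subset _ _) hk A (Finset.filter_subset _ _)
      (fun v => slope c pp s (uval v p)) hAs hBs
    have h5 := sum_dt_le2 T' (fun v => slope c pp s (uval v p)) hp
    have h6 : 0 ≤ ∑ v ∈ T', slope c pp s (uval v p) * uval v p := by
      apply Finset.sum_nonneg
      intro v _
      have : 0 ≤ slope c pp s (uval v p) := by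
        unfold slope
        split_ifs
        · norm_num
        · exact hs.le
      apply mul_nonneg this
      unfold uval
      positivity
    have h7 : c * A.card + pp * (T' \ A).card - M ≤ ∑ v ∈ T', slope c pp s (uval v p) * uval v p :=
      (abs_le_of_sq_le_sq' (h4.trans h5) h6).2
    have h8 : ∑ v ∈ T', hgt c pp s (uval v p) = c * A.card + pp * (T' \ A).card := by
      rw [← Finset.sum_sdiff (Finset.filter_subset _ _ : A ⊆ T'), Finset.sum_congr rfl hAh,
        Finset.sum_congr rfl hBh, Finset.sum_const, Finset.sum_const, nsmul_eq_mul, nsmul_eq_mul]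
      ring
    rw [h8] at h3
    linarith
  · have hk' : T'.card = 0 ∨ T'.card = 1 := by omega
    rcases hk' with h0 | h0
    · rw [Finset.card_eq_zero.mp h0]
      simpa using hM
    · obtain ⟨v, hv⟩ := Finset.card_eq_one.mp h0
      rw [hv, Finset.sum_singleton]
      exact min_le_left _ _

/-- lower bound for the weighted sum of squares of determinants, from a classification -/
lemma wsum_ge {κ : Type*} [DecidableEq κ] (T : Finset (ℂ × ℂ)) (σ : ℂ × ℂ → ℝ)
    (hσ : ∀ v ∈ T, 0 ≤ σ v) (q : ℝ) (hq : 0 ≤ q) (cl : ℂ × ℂ → κ) (C : Finset κ)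
    (hmap : ∀ v ∈ T, cl v ∈ C)
    (h1 : ∀ v ∈ T, ∀ w ∈ T, v ≠ w → 1 ≤ ‖dt v w‖ ^ 2)
    (h2 : ∀ v ∈ T, ∀ w ∈ T, v ≠ w → cl v = cl w → 1 + q ≤ ‖dt v w‖ ^ 2)
    (hC : 0 < C.card) :
    (1 + q / C.card) * (∑ v ∈ T, σ v) ^ 2 - (1 + q) * ∑ v ∈ T, σ v ^ 2
      ≤ ∑ v ∈ T, ∑ w ∈ T, σ v * σ w * ‖dt v w‖ ^ 2 := by
  classical
  have h3 : ∑ v ∈ T, ∑ w ∈ T, σ v * σ w * (1 - (1 + q) * (if v = w then (1 : ℝ) else 0)
        + q * (if cl w = cl v then 1 else 0)) ≤ ∑ v ∈ T, ∑ w ∈ T, σ v * σ w * ‖dt v w‖ ^ 2 := by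
    apply Finset.sum_le_sum
    intro v hv
    apply Finset.sum_le_sum
    intro w hw
    apply mul_le_mul_of_nonneg_left _ (mul_nonneg (hσ v hv) (hσ w hw))
    by_cases h4 : v = w
    · subst h4
      simp only [if_true]
      have : 0 ≤ ‖dt v v‖ ^ 2 := by positivity
      linarith
    · rw [if_neg h4]
      by_cases h5 : cl w = cl v
      · rw [if_pos h5]
        have := h2 v hv w hw h4 h5.symm
        linarith
      · rw [if_neg h5]
        have := h1 v hv w hw h4
        linarith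
  refine le_trans ?_ h3
  have h4 : ∑ v ∈ T, ∑ w ∈ T, σ v * σ w * (1 - (1 + q) * (if v = w then (1 : ℝ) else 0)
        + q * (if cl w = cl v then 1 else 0))
      = (∑ v ∈ T, σ v) ^ 2 - (1 + q) * ∑ v ∈ T, σ v ^ 2
        + q * ∑ k ∈ C, (∑ v ∈ T with cl v = k, σ v) ^ 2 := by
    have h5 : ∀ v ∈ T, ∑ w ∈ T, σ v * σ w * (1 - (1 + q) * (if v = w then (1 : ℝ) else 0)
        + q * (if cl w = cl v then 1 else 0))
        = σ v * (∑ w ∈ T, σ w) - (1 + q) * σ v ^ 2 + q * (σ v * ∑ w ∈ T with cl w = cl v, σ w) := by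
      intro v hv
      have h6 : ∀ w ∈ T, σ v * σ w * (1 - (1 + q) * (if v = w then (1 : ℝ) else 0)
          + q * (if cl w = cl v then 1 else 0))
          = σ v * σ w - (1 + q) * (if v = w then σ v * σ w else 0)
            + q * (σ v * (if cl w = cl v then σ w else 0)) := by
        intro w _
        split_ifs <;> ring
      rw [Finset.sum_congr rfl h6, Finset.sum_add_distrib, Finset.sum_sub_distrib,
        ← Finset.mul_sum, ← Finset.mul_sum, Finset.sum_ite_eq, if_pos hv, ← Finset.mul_sum,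
        ← Finset.mul_sum, ← Finset.sum_filter]
      ring
    rw [Finset.sum_congr rfl h5, Finset.sum_add_distrib, Finset.sum_sub_distrib,
      ← Finset.sum_mul, ← Finset.mul_sum, ← Finset.mul_sum]
    have h7 : ∑ v ∈ T, σ v * ∑ w ∈ T with cl w = cl v, σ w
        = ∑ k ∈ C, (∑ v ∈ T with cl v = k, σ v) ^ 2 := by
      rw [← Finset.sum_fiberwise_of_maps_to (g := cl) (t := C) hmap]
      apply Finset.sum_congr rfl
      intro k _
      rw [Finset.sum_congr rfl (g := fun v => σ v * ∑ w ∈ T with cl w = k, σ w)]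
      · rw [← Finset.sum_mul, pow_two]
      · intro v hv
        rw [Finset.mem_filter] at hv
        rw [hv.2]
    rw [h7]
    ring
  rw [h4]
  have h8 : ∑ v ∈ T, σ v = ∑ k ∈ C, ∑ v ∈ T with cl v = k, σ v :=
    (Finset.sum_fiberwise_of_maps_to (g := cl) (t := C) hmap _).symm
  have h9 := sq_sum_le_card_mul_sum_sq (s := C) (f := fun k => ∑ v ∈ T with cl v = k, σ v)
  rw [← h8] at h9
  have hC' : (0 : ℝ) < C.card := by exact_mod_cast hC
  have h10 : (∑ v ∈ T, σ v) ^ 2 / C.card ≤ ∑ k ∈ C, (∑ v ∈ T with cl v = k, σ v) ^ 2 := by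
    rw [div_le_iff₀ hC']
    linarith
  have h11 := mul_le_mul_of_nonneg_left h10 hq
  have h12 : (1 + q / C.card) * (∑ v ∈ T, σ v) ^ 2
      = (∑ v ∈ T, σ v) ^ 2 + q * ((∑ v ∈ T, σ v) ^ 2 / C.card) := by
    ring
  rw [h12]
  linarith

/-- sums of the weights -/
lemma sums_eq {T A : Finset (ℂ × ℂ)} (hA : A ⊆ T) {s : ℝ} {σ : ℂ × ℂ → ℝ}
    (h1 : ∀ v ∈ A, σ v = 1) (h2 : ∀ v ∈ T \ A, σ v = s) :
    ∑ v ∈ T, σ v = A.card + s * (T \ A).card ∧
      ∑ v ∈ T, σ v ^ 2 = A.card + s ^ 2 * (T \ A).card := by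
  constructor
  · rw [← Finset.sum_sdiff hA, Finset.sum_congr rfl h1, Finset.sum_congr rfl h2, Finset.sum_const,
      Finset.sum_const, nsmul_eq_mul, nsmul_eq_mul]
    ring
  · have h3 : ∀ v ∈ A, σ v ^ 2 = 1 := fun v hv => by rw [h1 v hv]; norm_num
    have h4 : ∀ v ∈ T \ A, σ v ^ 2 = s ^ 2 := fun v hv => by rw [h2 v hv]
    rw [← Finset.sum_sdiff hA, Finset.sum_congr rfl h3, Finset.sum_congr rfl h4, Finset.sum_const,
      Finset.sum_const, nsmul_eq_mul, nsmul_eq_mul]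
    ring

lemma sig_nonneg {T A : Finset (ℂ × ℂ)} {s : ℝ} (hs : 0 < s) {σ : ℂ × ℂ → ℝ}
    (h1 : ∀ v ∈ A, σ v = 1) (h2 : ∀ v ∈ T \ A, σ v = s) : ∀ v ∈ T, 0 ≤ σ v := by
  intro v hv
  by_cases h : v ∈ A
  · rw [h1 v h]; norm_num
  · rw [h2 v (Finset.mem_sdiff.mpr ⟨hv, h⟩)]; exact hs.le

/-! ### Gauss -/

theorem upper_gauss2 {p : Pt} (hp : p ∈ UH) :
    ∑' v : Prim (intRing I),
        ENNReal.ofReal (psi2 (159 / 100) (217 / 100) (3 / 2) (135 / 100) (1 / uval v p))
      ≤ ENNReal.ofReal (4 * (135 / 100)) := by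
  simp only [psi2_eq]
  refine (generic2 gauss_disc gaussUnits gauss_units
    (Phi (159 / 100) (217 / 100) (3 / 2) (135 / 100)) (Phi_nonneg (by norm_num))
    (135 / 100) p ?_).trans ?_
  · intro T hT hTd
    apply final_step2 hp T (by norm_num) (by norm_num)
    intro T' hT' hk A hA σ hσ1 hσ2
    obtain ⟨hS, hQ⟩ := sums_eq hA hσ1 hσ2
    have hσ := sig_nonneg (s := 3 / 2) (by norm_num) hσ1 hσ2
    have hd1 : ∀ v ∈ T', ∀ w ∈ T', v ≠ w → 1 ≤ ‖dt v w‖ ^ 2 := by
      intro v hv w hw hvw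
      have := gauss_disc _ (dt_mem (hT v (hT' hv)) (hT w (hT' hw))) (hTd v (hT' hv) w (hT' hw) hvw)
      nlinarith
    have hcard : A.card + (T' \ A).card = T'.card := by
      rw [Finset.card_sdiff_of_subset hA]
      have := Finset.card_le_card hA
      omega
    have e1 := wsum_ge T' σ hσ 0 le_rfl (fun _ => ()) {()} (by simp) hd1
      (fun v hv w hw h _ => by have := hd1 v hv w hw h; linarith) (by simp)
    have hCc : (Finset.univ.erase ((0 : ZMod 2), (0 : ZMod 2))).card = 3 := by decide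
    have e2 := wsum_ge T' σ hσ 1 (by norm_num) cls (Finset.univ.erase ((0 : ZMod 2), (0 : ZMod 2)))
      (fun v hv => Finset.mem_erase.mpr ⟨cls_ne (hT v (hT' hv)), Finset.mem_univ _⟩) hd1
      (fun v hv w hw h hc => by
        have := chi_norm (dt_mem (hT v (hT' hv)) (hT w (hT' hw))) (hTd v (hT' hv) w (hT' hw) h)
          (cls_dt (hT v (hT' hv)) (hT w (hT' hw)) hc)
        linarith) (by rw [hCc]; norm_num)
    rw [hCc] at e2
    rw [hS, hQ] at e1 e2
    generalize A.card = a at *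
    generalize (T' \ A).card = b at *
    rw [← hcard] at hk
    rcases Nat.lt_or_ge (a + b) 4 with h4 | h4
    · have ha : a ≤ 3 := by omega
      have hb : b ≤ 3 := by omega
      interval_cases a <;> interval_cases b <;> first | omega | (norm_num at e1 ⊢; linarith)
    · have h5 : (4 : ℝ) ≤ (a : ℝ) + b := by exact_mod_cast h4
      have ha : (0 : ℝ) ≤ a := by positivity
      have hb : (0 : ℝ) ≤ b := by positivity
      norm_num at e2
      nlinarith [mul_nonneg hb ha, mul_nonneg hb hb, mul_nonneg hb (sub_nonneg.mpr h5),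
        mul_nonneg (sub_nonneg.mpr h5) (sub_nonneg.mpr h5)]
  · apply ENNReal.ofReal_le_ofReal
    have : (gaussUnits.card : ℝ) ≤ 4 := by exact_mod_cast card_gaussUnits
    nlinarith

/-! ### Eisenstein -/

/-- reduction modulo `√-3` -/
noncomputable def chi3 (x : ℂ) : ZMod 3 :=
  ((⌊x.re - x.im / Real.sqrt 3⌋ - ⌊x.im / (Real.sqrt 3 / 2)⌋ : ℤ) : ZMod 3)

lemma chi3_val (a b : ℤ) : chi3 ((a : ℂ) + b * omega) = ((a - b : ℤ) : ZMod 3) := by
  have h3 : 0 < Real.sqrt 3 := Real.sqrt_pos.mpr (by norm_num)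
  unfold chi3
  have h1 : ((a : ℂ) + b * omega).re = a + b * (1 / 2) := by
    simp [omega_re]
  have h2 : ((a : ℂ) + b * omega).im = b * (Real.sqrt 3 / 2) := by
    simp [omega_im]
  have h4 : ((a : ℂ) + b * omega).re - ((a : ℂ) + b * omega).im / Real.sqrt 3 = (a : ℝ) := by
    rw [h1, h2]
    field_simp
    ring
  have h5 : ((a : ℂ) + b * omega).im / (Real.sqrt 3 / 2) = (b : ℝ) := by
    rw [h2]
    field_simp
  rw [h4, h5, Int.floor_intCast, Int.floor_intCast]

lemma chi3_mul {x y : ℂ} (hx : x ∈ intRing omega) (hy : y ∈ intRing omega) :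
    chi3 (x * y) = chi3 x * chi3 y := by
  obtain ⟨a, b, rfl⟩ := mem_eis hx
  obtain ⟨c, d, rfl⟩ := mem_eis hy
  have h1 : ((a : ℂ) + b * omega) * (c + d * omega)
      = ((a * c - b * d : ℤ) : ℂ) + ((a * d + b * c + b * d : ℤ) : ℂ) * omega := by
    push_cast
    linear_combination (b * d : ℂ) * omega_sq
  rw [h1, chi3_val, chi3_val, chi3_val]
  push_cast
  have h2 : (3 : ZMod 3) = 0 := by decide
  linear_combination (-(b * d : ZMod 3)) * h2

lemma chi3_sub {x y : ℂ} (hx : x ∈ intRing omega) (hy : y ∈ intRing omega) :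
    chi3 (x - y) = chi3 x - chi3 y := by
  obtain ⟨a, b, rfl⟩ := mem_eis hx
  obtain ⟨c, d, rfl⟩ := mem_eis hy
  have h1 : ((a : ℂ) + b * omega) - (c + d * omega)
      = ((a - c : ℤ) : ℂ) + ((b - d : ℤ) : ℂ) * omega := by
    push_cast
    ring
  rw [h1, chi3_val, chi3_val, chi3_val]
  push_cast
  ring

lemma chi3_norm {x : ℂ} (hx : x ∈ intRing omega) (h0 : x ≠ 0) (hc : chi3 x = 0) :
    3 ≤ ‖x‖ ^ 2 := by
  have h1 := eis_disc x hx h0
  obtain ⟨a, b, rfl⟩ := mem_eis hx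
  rw [chi3_val, ZMod.intCast_zmod_eq_zero_iff_dvd] at hc
  obtain ⟨k, hk⟩ := hc
  have h2 := norm_eis a b
  rw [h2]
  have h3 : a = b + 3 * k := by push_cast at hk; linarith
  have h4 : (1 : ℝ) ≤ ((a ^ 2 + a * b + b ^ 2 : ℤ) : ℝ) := by
    rw [← h2]
    nlinarith [norm_nonneg ((a : ℂ) + b * omega)]
  have h5 : 1 ≤ a ^ 2 + a * b + b ^ 2 := by exact_mod_cast h4
  have h6 : 3 ≤ a ^ 2 + a * b + b ^ 2 := by
    have : a ^ 2 + a * b + b ^ 2 = 3 * (b ^ 2 + 3 * b * k + 3 * k ^ 2) := by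
      rw [h3]; ring
    omega
  exact_mod_cast h6

/-- class of a row modulo `√-3`: a point of the projective line over `F_3` -/
noncomputable def cls3 (v : ℂ × ℂ) : Option (ZMod 3) :=
  if chi3 v.1 = 0 then none else some (chi3 v.2 * chi3 v.1)

lemma cls3_dt {v w : ℂ × ℂ} (hv : v ∈ Prim (intRing omega)) (hw : w ∈ Prim (intRing omega))
    (h : cls3 v = cls3 w) : chi3 (dt v w) = 0 := by
  obtain ⟨h1, h2, -⟩ := prim_spec hv
  obtain ⟨h3, h4, -⟩ := prim_spec hw
  unfold dt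
  rw [chi3_sub (Subring.mul_mem _ h1 h4) (Subring.mul_mem _ h2 h3), chi3_mul h1 h4, chi3_mul h2 h3]
  unfold cls3 at h
  generalize chi3 v.1 = a at *
  generalize chi3 v.2 = b at *
  generalize chi3 w.1 = c at *
  generalize chi3 w.2 = d at *
  revert h
  revert a b c d
  decide

theorem upper_eisenstein2 {p : Pt} (hp : p ∈ UH) :
    ∑' v : Prim (intRing omega),
        ENNReal.ofReal (psi2 (143 / 100) (1796 / 1000) (14 / 10) (86 / 100) (1 / uval v p))
      ≤ ENNReal.ofReal (6 * (86 / 100)) := by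
  simp only [psi2_eq]
  refine (generic2 eis_disc eisUnits eis_units
    (Phi (143 / 100) (1796 / 1000) (14 / 10) (86 / 100)) (Phi_nonneg (by norm_num))
    (86 / 100) p ?_).trans ?_
  · intro T hT hTd
    apply final_step2 hp T (by norm_num) (by norm_num)
    intro T' hT' hk A hA σ hσ1 hσ2
    obtain ⟨hS, hQ⟩ := sums_eq hA hσ1 hσ2
    have hσ := sig_nonneg (s := 14 / 10) (by norm_num) hσ1 hσ2
    have hd1 : ∀ v ∈ T', ∀ w ∈ T', v ≠ w → 1 ≤ ‖dt v w‖ ^ 2 := by
      intro v hv w hw hvw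
      have := eis_disc _ (dt_mem (hT v (hT' hv)) (hT w (hT' hw))) (hTd v (hT' hv) w (hT' hw) hvw)
      nlinarith
    have hcard : A.card + (T' \ A).card = T'.card := by
      rw [Finset.card_sdiff_of_subset hA]
      have := Finset.card_le_card hA
      omega
    have e1 := wsum_ge T' σ hσ 0 le_rfl (fun _ => ()) {()} (by simp) hd1
      (fun v hv w hw h _ => by have := hd1 v hv w hw h; linarith) (by simp)
    have hCc : (Finset.univ : Finset (Option (ZMod 3))).card = 4 := by decide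
    have e2 := wsum_ge T' σ hσ 2 (by norm_num) cls3 Finset.univ
      (fun v hv => Finset.mem_univ _) hd1
      (fun v hv w hw h hc => by
        have := chi3_norm (dt_mem (hT v (hT' hv)) (hT w (hT' hw))) (hTd v (hT' hv) w (hT' hw) h)
          (cls3_dt (hT v (hT' hv)) (hT w (hT' hw)) hc)
        linarith) (by rw [hCc]; norm_num)
    rw [hCc] at e2
    rw [hS, hQ] at e1 e2
    generalize A.card = a at *
    generalize (T' \ A).card = b at *
    rw [← hcard] at hk
    rcases Nat.lt_or_ge (a + b) 4 with h4 | h4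
    · have ha : a ≤ 3 := by omega
      have hb : b ≤ 3 := by omega
      interval_cases a <;> interval_cases b <;> first | omega | (norm_num at e1 ⊢; linarith)
    · have h5 : (4 : ℝ) ≤ (a : ℝ) + b := by exact_mod_cast h4
      have ha : (0 : ℝ) ≤ a := by positivity
      have hb : (0 : ℝ) ≤ b := by positivity
      norm_num at e2
      nlinarith [mul_nonneg hb ha, mul_nonneg hb hb, mul_nonneg hb (sub_nonneg.mpr h5),
        mul_nonneg (sub_nonneg.mpr h5) (sub_nonneg.mpr h5)]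
  · apply ENNReal.ofReal_le_ofReal
    have : (eisUnits.card : ℝ) ≤ 6 := by exact_mod_cast card_eisUnits
    nlinarith

end Pool.Agent.Helper34.Ram
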